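import Pool.Agent.Helper17.SL.GoalsA

/-!
# Project SL, packet GA2: archimedean independence
-/

namespace Pool.Agent.Helper17.SL.PkGA2

open Pool.Agent.Helper17.SL
open Pool.Agent.Helper51.SigLeo Pool.Agent.Helper51.SixExp NumberField Module

universe u v

section

variable {H : Type*} [Field H] [NumberField H]

theorem cplx_rel (c : InfinitePlace H → ℂ)
    (h : ∀ u : (𝓞 H)ˣ, ∑ w, c w * ((w.mult * Real.log (w (u : H)) : ℝ) : ℂ) = 0)
    (w w' : InfinitePlace H) : c w = c w' := by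
  apply Complex.ext
  · refine log_relation_const (fun w ↦ (c w).re) (fun u ↦ ?_) w w'
    have h1 := congrArg Complex.re (h u)
    rw [Complex.re_sum, Complex.zero_re] at h1
    rw [← h1]
    refine Finset.sum_congr rfl fun w _ ↦ ?_
    rw [Complex.re_mul_ofReal]
  · refine log_relation_const (fun w ↦ (c w).im) (fun u ↦ ?_) w w'
    have h1 := congrArg Complex.im (h u)
    rw [Complex.im_sum, Complex.zero_im] at h1
    rw [← h1]
    refine Finset.sum_congr rfl fun w _ ↦ ?_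
    rw [Complex.im_mul_ofReal]

theorem fin_rel {ι : Type*} [Fintype ι] (w : ι → InfinitePlace H) (hw : Function.Injective w)
    (hm : ∀ i, (w i).mult = 2) (a : ι → ℂ)
    (h : ∀ u : (𝓞 H)ˣ, ∑ i, a i * ((Real.log (w i (u : H)) : ℝ) : ℂ) = 0) (i j : ι) :
    a i = a j := by
  classical
  let c : InfinitePlace H → ℂ := fun v ↦ ∑ i, if v = w i then a i / 2 else 0
  have hc : ∀ i, c (w i) = a i / 2 := fun i ↦ by
    simp only [c]
    rw [Finset.sum_eq_single i]
    · rw [if_pos rfl]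
    · intro j _ hj
      rw [if_neg (fun h' ↦ hj (hw h').symm)]
    · intro hi
      exact absurd (Finset.mem_univ i) hi
  have h1 : ∀ u : (𝓞 H)ˣ, ∑ v, c v * ((v.mult * Real.log (v (u : H)) : ℝ) : ℂ) = 0 := by
    intro u
    rw [← h u]
    have e1 : ∀ v, c v * ((v.mult * Real.log (v (u : H)) : ℝ) : ℂ) =
        ∑ i, if v = w i then a i / 2 * ((v.mult * Real.log (v (u : H)) : ℝ) : ℂ) else 0 := by
      intro v
      simp only [c]
      rw [Finset.sum_mul]
      refine Finset.sum_congr rfl fun i _ ↦ ?_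
      rw [ite_mul, zero_mul]
    simp only [e1]
    rw [Finset.sum_comm]
    refine Finset.sum_congr rfl fun i _ ↦ ?_
    rw [Finset.sum_ite_eq' Finset.univ (w i), if_pos (Finset.mem_univ _), hm i]
    push_cast
    ring
  have h2 := cplx_rel c h1 (w i) (w j)
  rw [hc, hc] at h2
  linear_combination 2 * h2

end

section

variable {K : Type u} [Field K] [NumberField K] [IsTotallyComplex K] {H : Type v}
  [Field H] [NumberField H] [Algebra K H]

theorem mult_two (K : Type u) [Field K] [NumberField K] [IsTotallyComplex K] [Algebra K H]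
    (ρ : H →+* ℂ) : (InfinitePlace.mk ρ).mult = 2 := by
  have h : ¬ (InfinitePlace.mk ρ).IsReal := by
    intro hr
    have h1 := InfinitePlace.isReal_of_mk_isReal hr
    rw [ComplexEmbedding.isReal_iff] at h1
    apply conjugate_ne (ρ.comp (algebraMap K H))
    rw [← ComplexEmbedding.conjugate_comp, h1]
  rw [InfinitePlace.mult, if_neg h]

theorem restrict_comp (ρ : H →+* ℂ) (g : H ≃ₐ[K] H) :
    (ρ.comp (g : H →+* H)).comp (algebraMap K H) = ρ.comp (algebraMap K H) := by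
  ext y
  show ρ (g (algebraMap K H y)) = ρ (algebraMap K H y)
  rw [AlgEquiv.commutes]

theorem mk_inj (ρ : H →+* ℂ) {g h : H ≃ₐ[K] H}
    (e : InfinitePlace.mk (ρ.comp (g : H →+* H)) = InfinitePlace.mk (ρ.comp (h : H →+* H))) :
    g = h := by
  rcases InfinitePlace.mk_eq_iff.mp e with h1 | h1
  · ext y
    apply ρ.injective
    exact RingHom.congr_fun h1 y
  · exfalso
    apply conjugate_ne (ρ.comp (algebraMap K H))
    rw [← restrict_comp ρ g, ← ComplexEmbedding.conjugate_comp, h1, restrict_comp, restrict_comp]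

theorem mk_ne (ρ₁ ρ₂ : H →+* ℂ)
    (hne : InfinitePlace.mk (ρ₁.comp (algebraMap K H)) ≠ InfinitePlace.mk (ρ₂.comp (algebraMap K H)))
    (g h : H ≃ₐ[K] H) :
    InfinitePlace.mk (ρ₁.comp (g : H →+* H)) ≠ InfinitePlace.mk (ρ₂.comp (h : H →+* H)) := by
  intro e
  apply hne
  rw [← restrict_comp ρ₁ g, ← restrict_comp ρ₂ h]
  rcases InfinitePlace.mk_eq_iff.mp e with h1 | h1
  · rw [h1]
  · rw [← h1, ComplexEmbedding.conjugate_comp]
    exact (InfinitePlace.mk_conjugate_eq _).symm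

/-- the places -/
noncomputable def pl (K : Type u) [Field K] {H : Type v} [Field H] [Algebra K H]
    (ρ₁ ρ₂ : H →+* ℂ) : (H ≃ₐ[K] H) ⊕ (H ≃ₐ[K] H) → InfinitePlace H
  | .inl g => InfinitePlace.mk (ρ₁.comp (g : H →+* H))
  | .inr g => InfinitePlace.mk (ρ₂.comp (g : H →+* H))

theorem rel [Fintype (H ≃ₐ[K] H)] (ρ₁ ρ₂ : H →+* ℂ)
    (hne : InfinitePlace.mk (ρ₁.comp (algebraMap K H)) ≠ InfinitePlace.mk (ρ₂.comp (algebraMap K H)))
    (a b : (H ≃ₐ[K] H) → ℂ)
    (h : ∀ u : Additive (𝓞 H)ˣ, ∑ g, a g * archLog ρ₁ (unitsHom g u) +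
      ∑ g, b g * archLog ρ₂ (unitsHom g u) = 0) (g g' : H ≃ₐ[K] H) : a g = b g' ∧ b g = b g' := by
  have hinj : Function.Injective (pl K ρ₁ ρ₂) := by
    rintro (x | x) (y | y) e
    · rw [mk_inj ρ₁ e]
    · exact absurd e (mk_ne ρ₁ ρ₂ hne x y)
    · exact absurd e.symm (mk_ne ρ₁ ρ₂ hne y x)
    · rw [mk_inj ρ₂ e]
  have hm : ∀ i, (pl K ρ₁ ρ₂ i).mult = 2 := by
    rintro (x | x)
    · exact mult_two K _
    · exact mult_two K _
  have key := fin_rel (pl K ρ₁ ρ₂) hinj hm (Sum.elim a b) (fun u ↦ by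
    rw [Fintype.sum_sum_type]
    exact h (Additive.ofMul u))
  exact ⟨key (.inl g) (.inr g'), key (.inr g) (.inr g')⟩

end

theorem thm : S_GA2.{u, v} := by
  intro K _ _ _ H _ _ _ _ _ χ ρ₁ ρ₂ hχ hne
  by_contra hcon
  push Not at hcon
  have hex : ∃ u₁ : Additive (𝓞 H)ˣ,
      ∑ g, ((χ g⁻¹ : ℂˣ) : ℂ) * archLog ρ₁ (unitsHom g u₁) ≠ 0 := by
    by_contra hall
    push Not at hall
    have h := rel ρ₁ ρ₂ hne (fun g ↦ ((χ g⁻¹ : ℂˣ) : ℂ)) (fun _ ↦ 0) (fun u ↦ by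
      rw [hall u]
      simp) 1 1
    exact (χ 1⁻¹).ne_zero h.1
  obtain ⟨u₁, hu₁⟩ := hex
  set L1 := ∑ g, ((χ g⁻¹ : ℂˣ) : ℂ) * archLog ρ₁ (unitsHom g u₁) with hL1
  set L2 := ∑ g, ((χ g⁻¹ : ℂˣ) : ℂ) * archLog ρ₂ (unitsHom g u₁) with hL2
  have h := fun g g' ↦ rel ρ₁ ρ₂ hne (fun g ↦ - L2 * ((χ g⁻¹ : ℂˣ) : ℂ))
    (fun g ↦ L1 * ((χ g⁻¹ : ℂˣ) : ℂ)) (fun u ↦ by
      have h1 := hcon u₁ u
      rw [← hL1, ← hL2] at h1
      rw [← h1]
      simp only [mul_assoc, ← Finset.mul_sum]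
      ring) g g'
  apply hχ
  ext g
  have h2 := (h g⁻¹ 1).2
  simp only [inv_inv, inv_one] at h2
  have h3 := mul_left_cancel₀ hu₁ h2
  rw [h3, map_one, MonoidHom.one_apply]

end Pool.Agent.Helper17.SL.PkGA2
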